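import Pool.Agent.H812R4.NotFDC
import Pool.Agent.H812R4.DAD

/-!
# Further properties of the affine action of `ℤ² ⋊ D₄` on `ℤ₂²`
-/

set_option autoImplicit false

noncomputable section

namespace Pool.Agent.Y478.DA

open H812R4 Gam Metric

/-- The dynamic asymptotic dimension is not at most one. -/
theorem not_DADLE_one : ¬ GG.DADLE 1 := by
  intro hd
  let K : Set (X2 × Gam) := Set.univ ×ˢ FF
  have hKc : IsCompact K := isCompact_univ.prod FF_finite.isCompact
  have hKo : IsOpen K := isOpen_univ.prod (isOpen_discrete _)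
  have hKr : GG.RelCompact K := by
    change IsCompact (closure K)
    rw [hKc.isClosed.closure_eq]
    exact hKc
  obtain ⟨U, hU, hcov, hrc⟩ := hd K hKo hKr
  let idx : Bool → Fin 2 := fun j => if j then 1 else 0
  let U' : Bool → Set X2 := fun j => {x | ((x, 1) : X2 × Gam) ∈ U (idx j)}
  let W : Bool → Set (X2 × Gam) := fun j => GG.gen (GG.restr K (U (idx j)))
  obtain ⟨j, P, k, hj⟩ := keyLemma U'
    (fun j => (hU (idx j)).1.preimage (continuous_id.prodMk continuous_const))
    (fun x => by
      have h1 : ((x, 1) : GG.carrier) ∈ ⋃ i, U i := by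
        apply hcov
        left
        exact ⟨((x, 1) : X2 × Gam), ⟨Set.mem_univ _, Or.inl rfl⟩, rfl⟩
      obtain ⟨i, hi⟩ := Set.mem_iUnion.1 h1
      fin_cases i
      · exact ⟨false, hi⟩
      · exact ⟨true, hi⟩)
    W (fun j => EtaleGroupoid.isSubgroupoid_gen _)
    (fun j x g hg hx hgx => by
      refine EtaleGroupoid.subset_gen _ ?_
      exact ⟨⟨Set.mem_univ _, hg⟩, hx, hgx⟩)
  exact not_big_of_relCompact (hrc (idx j)) ⟨P, k, hj⟩

/-- the group is finitely generated (by three reflections) -/
theorem fg_Gam : Group.FG Gam := by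
  rw [Group.fg_iff]
  refine ⟨{s2, sw, r3 1}, ?_, Set.toFinite _⟩
  rw [eq_top_iff]
  intro g _
  have h := generation 1 (fun g => g ∈ Subgroup.closure ({s2, sw, r3 1} : Set Gam))
    (fun g h hg hh => Subgroup.mul_mem _ hg hh) (Subgroup.subset_closure (by simp))
    (Subgroup.subset_closure (by simp)) (Subgroup.subset_closure (by simp)) g
  have e : scl 1 g = g := by
    rcases g with ⟨u, v, a, b, w⟩
    simp [scl]
  rwa [e] at h

/-- translations -/
def trHom : Multiplicative (ℤ × ℤ) →* Gam where
  toFun P := tr P.toAdd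
  map_one' := tr_zero
  map_mul' P Q := (tr_mul_tr _ _).symm

theorem trHom_injective : Function.Injective trHom := by
  intro P Q h
  have h1 : P.toAdd.1 = Q.toAdd.1 := congrArg Gam.u h
  have h2 : P.toAdd.2 = Q.toAdd.2 := congrArg Gam.v h
  exact Multiplicative.toAdd.injective (Prod.ext h1 h2)

theorem mem_range_iff (g : Gam) : g ∈ trHom.range ↔ g.a = 1 ∧ g.b = 1 ∧ g.w = false := by
  constructor
  · rintro ⟨P, rfl⟩
    exact ⟨rfl, rfl, rfl⟩
  · rcases g with ⟨u, v, a, b, w⟩
    rintro ⟨h1, h2, h3⟩
    have h1' : a = 1 := h1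
    have h2' : b = 1 := h2
    have h3' : w = false := h3
    subst h1' h2' h3'
    exact ⟨Multiplicative.ofAdd (u, v), rfl⟩

theorem units_mul_self (a : ℤˣ) : a * a = 1 := by
  rcases Int.units_eq_one_or a with h | h <;> subst h <;> simp

theorem normal_range : trHom.range.Normal := by
  refine ⟨fun n hn g => ?_⟩
  rw [mem_range_iff] at hn ⊢
  rcases n with ⟨u, v, a, b, w⟩
  obtain ⟨h1, h2, h3⟩ := hn
  have h1' : a = 1 := h1
  have h2' : b = 1 := h2
  have h3' : w = false := h3
  subst h1' h2' h3'
  rcases g with ⟨u', v', a', b', _ | _⟩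
  · rw [inv_false, mul_false, mul_false]
    simp [units_mul_self]
  · rw [inv_true, mul_true, Bool.not_false, mul_true]
    simp [units_mul_self]

theorem finiteIndex_range : trHom.range.FiniteIndex := by
  have := normal_range
  let f : Gam → ℤˣ × ℤˣ × Bool := fun g => (g.a, g.b, g.w)
  have key : ∀ g h : Gam, f g = f h → h * g⁻¹ ∈ trHom.range := by
    rintro ⟨u, v, a, b, w⟩ ⟨u', v', a', b', w'⟩ e
    simp only [f, Prod.mk.injEq] at e
    obtain ⟨rfl, rfl, rfl⟩ := e
    rw [mem_range_iff]
    cases w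
    · rw [inv_false, mul_false]
      simp [units_mul_self]
    · rw [inv_true, mul_true]
      simp [units_mul_self]
  have hfin : Finite (Gam ⧸ trHom.range) := by
    refine Finite.of_injective (fun q : Gam ⧸ trHom.range => f q.out) ?_
    intro q q' h
    have h1 := key _ _ h
    have h2 : (q.out)⁻¹ * q'.out ∈ trHom.range := (normal_range.mem_comm_iff).1 h1
    rw [← q.out_eq, ← q'.out_eq]
    exact QuotientGroup.eq.2 h2
  exact Subgroup.finiteIndex_of_finite_quotient

/-- all orbits are dense -/
theorem dense_orbit (x : X2) : Dense (MulAction.orbit Gam x) := by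
  have h1 : DenseRange (fun P : ℤ × ℤ => ((P.1 : ℤ_[2]), (P.2 : ℤ_[2]))) :=
    DenseRange.prodMap (PadicInt.denseRange_intCast) (PadicInt.denseRange_intCast)
  have h2 : DenseRange (fun P : ℤ × ℤ => x + ((P.1 : ℤ_[2]), (P.2 : ℤ_[2]))) := by
    exact (Homeomorph.addLeft x).surjective.denseRange.comp h1 (Homeomorph.addLeft x).continuous
  refine h2.mono ?_
  rintro _ ⟨P, rfl⟩
  refine ⟨tr P, ?_⟩
  show tr P • x = _
  rw [smul_def]
  simp only [tr, act, Units.val_one, Int.cast_one, one_mul]
  ext <;> simp [add_comm]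

theorem totallyDisconnected_X2 : TotallyDisconnectedSpace X2 := inferInstance

theorem secondCountable_X2 : SecondCountableTopology X2 := inferInstance

end Pool.Agent.Y478.DA
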